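import Pool.Agent.H842R3.BogoB

set_option autoImplicit false

/-!
The main construction: a random convex body of digits, for sums and differences of `K` elements
(adapted from `Pool.Agent.H842R3.BogoC`, which treats `K = 4`).
-/

namespace Pool.Agent.Y940.BogK

open Pool.Agent.H842R3.Bogo

open Finset

/-- The Bohr set `B(Θ, ρ; N)`. -/
def bohrSet (Θ : Finset UnitAddCircle) (ρ : ℝ) (N : ℕ) : Set ℤ :=
  {n | |n| ≤ (N : ℤ) ∧ ∀ θ ∈ Θ, ‖n • θ‖ ≤ ρ}

/-- `kA - kA`. -/
def kDiff (k : ℕ) (A : Finset ℤ) : Set ℤ :=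
  {n | ∃ a b : Fin k → ℤ, (∀ i, a i ∈ A) ∧ (∀ i, b i ∈ A) ∧ n = ∑ i, a i - ∑ i, b i}

/-- The digit vectors in the box of side `2 K H` whose value lies in the rational Bohr set given by
`k`. -/
noncomputable def Sset (K d H N R mm : ℕ) (k : Fin mm → Fin R) (q : ℕ) : Finset (Fin d → ℤ) :=
  (box d (2 * K * H)).filter fun z => |val (4 * K * H + 1) z| ≤ (N : ℤ) ∧
    ∀ i, ‖(((val (4 * K * H + 1) z : ℝ) * ((k i : ℕ) / (R : ℝ)) : ℝ) : UnitAddCircle)‖ ≤ 1 / (q : ℝ)

/-- The sign vectors not detecting any element of `Sset`. -/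
noncomputable def Uset (K d H N R mm T : ℕ) (k : Fin mm → Fin R) (q : ℕ) :
    Finset (Finset (Fin d)) :=
  univ.filter fun U => ∀ z ∈ Sset K d H N R mm k q, |pair U z| ≤ 2 * K * (T : ℤ)

lemma val_sum (M : ℤ) {d : ℕ} {ι : Type*} (s : Finset ι) (y : ι → Fin d → ℤ) :
    val M (∑ i ∈ s, y i) = ∑ i ∈ s, val M (y i) :=
  map_sum (AddMonoidHom.mk' (val M) (val_add M)) y s

lemma pair_sum {d : ℕ} (U : Finset (Fin d)) {ι : Type*} (s : Finset ι) (y : ι → Fin d → ℤ) :
    pair U (∑ i ∈ s, y i) = ∑ i ∈ s, pair U (y i) :=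
  map_sum (AddMonoidHom.mk' (pair U) (pair_add U)) y s

lemma core_abstract {kk d H T J mm R N : ℕ} (hkk : 1 ≤ kk) {l x : ℝ} (P : ℕ → ℕ → Prop)
    (hN : N = (4 * kk * H + 1) ^ d) (hR : 0 < R)
    (hindex : R ^ mm * (N + 1) < 2 ^ J) (hl : 0 ≤ l)
    (hK : J * (2 * ((2 * H + 1) ^ d * Real.exp (d * (l ^ 2 * H ^ 2 / 2) - l * T)))
      ≤ ((2 * H + 1) ^ d : ℝ) / 2)
    (hx0 : 0 < x) (hx1 : x < 1)
    (hcount : ∀ q m : ℕ, P q m → ∀ k s : ℕ, d ≤ 2 * k → k ≤ d →
      (s : ℝ) * x ^ (4 * kk * T) ≤ (2 / (1 - x)) ^ k * (4 * kk * H + 1 : ℝ) ^ (d - k) →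
      N + 1 ≤ q ^ m * s → False) :
    ∃ A : Finset ℤ, A ⊆ Finset.Icc 1 (N : ℤ) ∧ (2 * H + 1) ^ d ≤ 2 * A.card ∧
      A.card ≤ (2 * H + 1) ^ d ∧
      ∀ (Θ : Finset UnitAddCircle) (ρ : ℝ) (q : ℕ), 0 < q → 2 / (q : ℝ) ≤ ρ → q ≤ N →
        N * q ≤ R → Θ.card ≤ mm → P q Θ.card → ¬ (bohrSet Θ ρ N ⊆ kDiff kk A) := by
  classical
  -- the family of good indices
  let s : Finset ((Fin mm → Fin R) × Fin (N + 1)) :=
    univ.filter fun κ => 2 * (Uset kk d H N R mm T κ.1 κ.2).card ≤ 2 ^ d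
  have hscard : s.card < 2 ^ J := by
    refine lt_of_le_of_lt ?_ hindex
    refine (Finset.card_le_univ s).trans (le_of_eq ?_)
    rw [Fintype.card_prod, Fintype.card_fun, Fintype.card_fin, Fintype.card_fin, Fintype.card_fin]
  obtain ⟨U, hU⟩ := exists_tuple (J := J) s (fun κ => Uset kk d H N R mm T κ.1 κ.2)
    (fun κ hκ => (Finset.mem_filter.1 hκ).2) hscard
  -- the convex body
  let K : Finset (Fin d → ℤ) := (box d H).filter fun y => ∀ j, |pair (U j) y| ≤ (T : ℤ)
  have hMpos : (0 : ℤ) < 4 * (kk : ℤ) * (H : ℤ) + 1 := by positivity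
  have hkk' : (1 : ℤ) ≤ kk := by exact_mod_cast hkk
  have hkH : (H : ℤ) ≤ kk * H := by nlinarith [Int.natCast_nonneg H]
  have hKcard : (2 * H + 1) ^ d ≤ 2 * K.card := by
    have h1 : box d H ⊆ K ∪ (univ : Finset (Fin J)).biUnion fun j =>
        (box d H).filter fun y => (T : ℝ) < |(pair (U j) y : ℝ)| := by
      intro y hy
      by_cases h : ∀ j, |pair (U j) y| ≤ (T : ℤ)
      · exact Finset.mem_union_left _ (Finset.mem_filter.2 ⟨hy, h⟩)
      · push Not at h
        obtain ⟨j, hj⟩ := h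
        refine Finset.mem_union_right _ (Finset.mem_biUnion.2 ⟨j, Finset.mem_univ _,
          Finset.mem_filter.2 ⟨hy, ?_⟩⟩)
        have : ((T : ℤ) : ℝ) < ((|pair (U j) y| : ℤ) : ℝ) := by exact_mod_cast hj
        simpa using this
    have h2 := (Finset.card_le_card h1).trans (Finset.card_union_le _ _)
    rw [card_box] at h2
    have h3 : (((univ : Finset (Fin J)).biUnion fun j =>
        (box d H).filter fun y => (T : ℝ) < |(pair (U j) y : ℝ)|).card : ℝ)
        ≤ ((2 * H + 1) ^ d : ℝ) / 2 := by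
      refine le_trans ?_ hK
      have h4 : (((univ : Finset (Fin J)).biUnion fun j =>
        (box d H).filter fun y => (T : ℝ) < |(pair (U j) y : ℝ)|).card : ℝ)
        ≤ ∑ j : Fin J, (((box d H).filter fun y => (T : ℝ) < |(pair (U j) y : ℝ)|).card : ℝ) := by
        exact_mod_cast Finset.card_biUnion_le
      refine h4.trans ?_
      calc ∑ j : Fin J, (((box d H).filter fun y => (T : ℝ) < |(pair (U j) y : ℝ)|).card : ℝ)
          ≤ ∑ _j : Fin J, (2 * ((2 * H + 1) ^ d * Real.exp (d * (l ^ 2 * H ^ 2 / 2) - l * T))) :=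
            Finset.sum_le_sum fun j _ => card_large_pair_le H (U j) l T hl
        _ = J * (2 * ((2 * H + 1) ^ d * Real.exp (d * (l ^ 2 * H ^ 2 / 2) - l * T))) := by
            rw [Finset.sum_const, Finset.card_univ, Fintype.card_fin, nsmul_eq_mul]
    have h5 : (((2 * H + 1) ^ d : ℕ) : ℝ) ≤ K.card + (((univ : Finset (Fin J)).biUnion fun j =>
        (box d H).filter fun y => (T : ℝ) < |(pair (U j) y : ℝ)|).card : ℝ) := by
      exact_mod_cast h2
    have h6 : (((2 * H + 1) ^ d : ℕ) : ℝ) ≤ 2 * K.card := by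
      push_cast at h5 ⊢
      linarith
    exact_mod_cast h6
  have hKbox : ∀ y ∈ K, ∀ i, |y i| ≤ (H : ℤ) := fun y hy =>
    mem_box.1 (Finset.mem_filter.1 hy).1
  have hinj : ∀ z z' : Fin d → ℤ, z ∈ box d (2 * kk * H) → z' ∈ box d (2 * kk * H) →
      val (4 * kk * H + 1) z = val (4 * kk * H + 1) z' → z = z' := by
    intro z z' hz hz' h
    rw [mem_box] at hz hz'
    exact val_inj (4 * kk * H + 1) (2 * kk * H : ℕ) (by push_cast; linarith) hMpos d z z' hz hz' h
  let c0 : ℤ := 1 + val (4 * kk * H + 1) (fun _ : Fin d => (H : ℤ))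
  let A : Finset ℤ := K.image fun y => c0 + val (4 * kk * H + 1) y
  have hAcard : A.card = K.card := by
    refine Finset.card_image_of_injOn ?_
    intro y hy y' hy' h
    have h1 : val (4 * kk * H + 1) y = val (4 * kk * H + 1) y' := by
      simpa using h
    refine hinj y y' ?_ ?_ h1
    · rw [mem_box]; intro i
      have := hKbox y hy i
      push_cast
      nlinarith [Int.natCast_nonneg H]
    · rw [mem_box]; intro i
      have := hKbox y' hy' i
      push_cast
      nlinarith [Int.natCast_nonneg H]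
  refine ⟨A, ?_, ?_, ?_, ?_⟩
  · intro a ha
    rw [Finset.mem_image] at ha
    obtain ⟨y, hy, rfl⟩ := ha
    have h1 : c0 + val (4 * kk * H + 1) y = 1 + val (4 * kk * H + 1) ((fun _ : Fin d => (H : ℤ)) + y) := by
      rw [val_add]
      simp only [c0]
      ring
    have h2 := val_range (4 * kk * H + 1) hMpos d ((fun _ : Fin d => (H : ℤ)) + y) (by
      intro i
      have := hKbox y hy i
      rw [abs_le] at this
      simp only [Pi.add_apply]
      constructor <;> nlinarith [Int.natCast_nonneg H])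
    rw [h1, Finset.mem_Icc, hN]
    push_cast
    constructor
    · linarith [h2.1]
    · linarith [h2.2]
  · rw [hAcard]; exact hKcard
  · rw [hAcard, ← card_box]
    exact Finset.card_le_card (Finset.filter_subset _ _)
  · intro Θ ρ q hq hρ hqN hNR hcard hP hsub
    have hq' : (0 : ℝ) < q := by exact_mod_cast hq
    have hR' : (0 : ℝ) < R := by exact_mod_cast hR
    -- differences
    have hdiff : ∀ n ∈ kDiff kk A, ∃ z ∈ box d (2 * kk * H), val (4 * kk * H + 1) z = n ∧
        ∀ j, |pair (U j) z| ≤ 2 * kk * (T : ℤ) := by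
      rintro n ⟨a, b, ha, hb, rfl⟩
      have ha' : ∀ i, ∃ y ∈ K, c0 + val (4 * kk * H + 1) y = a i := fun i =>
        Finset.mem_image.1 (ha i)
      have hb' : ∀ i, ∃ y ∈ K, c0 + val (4 * kk * H + 1) y = b i := fun i =>
        Finset.mem_image.1 (hb i)
      choose y hyK hy using ha'
      choose w hwK hw using hb'
      refine ⟨∑ i, y i - ∑ i, w i, ?_, ?_, ?_⟩
      · rw [mem_box]
        intro i
        have e1 : |∑ j, y j i| ≤ kk * (H : ℤ) := by
          calc |∑ j, y j i| ≤ ∑ j, |y j i| := Finset.abs_sum_le_sum_abs _ _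
            _ ≤ ∑ _j : Fin kk, (H : ℤ) := Finset.sum_le_sum fun j _ => hKbox _ (hyK j) i
            _ = kk * H := by simp
        have e2 : |∑ j, w j i| ≤ kk * (H : ℤ) := by
          calc |∑ j, w j i| ≤ ∑ j, |w j i| := Finset.abs_sum_le_sum_abs _ _
            _ ≤ ∑ _j : Fin kk, (H : ℤ) := Finset.sum_le_sum fun j _ => hKbox _ (hwK j) i
            _ = kk * H := by simp
        have e3 : (∑ j, y j - ∑ j, w j) i = ∑ j, y j i - ∑ j, w j i := by
          simp [Finset.sum_apply]
        rw [e3]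
        rw [abs_le] at e1 e2 ⊢
        push_cast
        constructor <;> linarith [e1.1, e1.2, e2.1, e2.2]
      · rw [val_sub, val_sum, val_sum]
        have e1 : ∑ i, a i = kk * c0 + ∑ i, val (4 * kk * H + 1) (y i) := by
          rw [← Finset.sum_congr rfl (fun i _ => hy i), Finset.sum_add_distrib]
          simp
        have e2 : ∑ i, b i = kk * c0 + ∑ i, val (4 * kk * H + 1) (w i) := by
          rw [← Finset.sum_congr rfl (fun i _ => hw i), Finset.sum_add_distrib]
          simp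
        rw [e1, e2]
        ring
      · intro j
        rw [pair_sub, pair_sum, pair_sum]
        have e1 : |∑ i, pair (U j) (y i)| ≤ kk * (T : ℤ) := by
          calc |∑ i, pair (U j) (y i)| ≤ ∑ i, |pair (U j) (y i)| :=
                Finset.abs_sum_le_sum_abs _ _
            _ ≤ ∑ _i : Fin kk, (T : ℤ) :=
                Finset.sum_le_sum fun i _ => (Finset.mem_filter.1 (hyK i)).2 j
            _ = kk * T := by simp
        have e2 : |∑ i, pair (U j) (w i)| ≤ kk * (T : ℤ) := by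
          calc |∑ i, pair (U j) (w i)| ≤ ∑ i, |pair (U j) (w i)| :=
                Finset.abs_sum_le_sum_abs _ _
            _ ≤ ∑ _i : Fin kk, (T : ℤ) :=
                Finset.sum_le_sum fun i _ => (Finset.mem_filter.1 (hwK i)).2 j
            _ = kk * T := by simp
        rw [abs_le] at e1 e2 ⊢
        constructor <;> linarith [e1.1, e1.2, e2.1, e2.2]
    -- rounding
    choose rk hrk using fun θ : UnitAddCircle => exists_round R hR θ
    let e := Θ.equivFin
    let k : Fin mm → Fin R := fun i =>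
      if h : (i : ℕ) < Θ.card then rk (e.symm ⟨i, h⟩ : Θ) else ⟨0, hR⟩
    have hkΘ : ∀ θ ∈ Θ, ∃ i, k i = rk θ := by
      intro θ hθ
      have h1 : ((e ⟨θ, hθ⟩ : Fin Θ.card) : ℕ) < Θ.card := (e ⟨θ, hθ⟩).2
      refine ⟨⟨(e ⟨θ, hθ⟩ : Fin Θ.card), lt_of_lt_of_le h1 hcard⟩, ?_⟩
      simp only [k]
      rw [dif_pos h1]
      simp
    have hk' : ∀ i, (∃ θ ∈ Θ, k i = rk θ) ∨ k i = ⟨0, hR⟩ := by
      intro i
      by_cases h : (i : ℕ) < Θ.card
      · left
        refine ⟨(e.symm ⟨i, h⟩ : Θ), (e.symm ⟨i, h⟩ : Θ).2, ?_⟩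
        simp only [k]
        rw [dif_pos h]
      · right
        simp only [k]
        rw [dif_neg h]
    -- elements of the rational Bohr set
    have hB1 : ∀ n : ℤ, |n| ≤ (N : ℤ) →
        (∀ i, ‖(((n : ℝ) * ((k i : ℕ) / (R : ℝ)) : ℝ) : UnitAddCircle)‖ ≤ 1 / (q : ℝ)) →
        n ∈ bohrSet Θ ρ N := by
      intro n hn hk
      refine ⟨hn, fun θ hθ => ?_⟩
      obtain ⟨i, hi⟩ := hkΘ θ hθ
      have h1 := hrk θ n
      rw [← hi] at h1
      have h2 := hk i
      have h3 : |(n : ℝ)| / R ≤ 1 / q := by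
        rw [div_le_div_iff₀ hR' hq']
        have h4 : |(n : ℝ)| ≤ N := by
          have : ((|n| : ℤ) : ℝ) ≤ ((N : ℤ) : ℝ) := by exact_mod_cast hn
          simpa using this
        have h5 : (N : ℝ) * q ≤ R := by exact_mod_cast hNR
        nlinarith
      have h6 : (2 : ℝ) / q = 1 / q + 1 / q := by ring
      linarith
    -- pigeonhole
    have hpig := bohr_card Θ (fun θ => ((rk θ : ℕ) : ℝ) / (R : ℝ)) N q hq
    set B := ((Finset.Icc (-(N : ℤ)) (N : ℤ)).filter fun n : ℤ =>
      ∀ θ ∈ Θ, ‖(((n : ℝ) * (((rk θ : ℕ) : ℝ) / (R : ℝ)) : ℝ) : UnitAddCircle)‖ ≤ 1 / (q : ℝ))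
      with hBdef
    have hBk : ∀ n ∈ B, |n| ≤ (N : ℤ) ∧
        ∀ i, ‖(((n : ℝ) * ((k i : ℕ) / (R : ℝ)) : ℝ) : UnitAddCircle)‖ ≤ 1 / (q : ℝ) := by
      intro n hn
      rw [hBdef, Finset.mem_filter, Finset.mem_Icc] at hn
      refine ⟨abs_le.2 hn.1, fun i => ?_⟩
      rcases hk' i with ⟨θ, hθ, h⟩ | h
      · rw [h]; exact hn.2 θ hθ
      · rw [h]
        simp only [Nat.cast_zero, zero_div, mul_zero, AddCircle.coe_zero, norm_zero]
        positivity
    have hBS : B.card ≤ (Sset kk d H N R mm k q).card := by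
      have h1 : B ⊆ (Sset kk d H N R mm k q).image (val (4 * kk * H + 1)) := by
        intro n hn
        have h2 := hBk n hn
        obtain ⟨z, hz, hzn, -⟩ := hdiff n (hsub (hB1 n h2.1 h2.2))
        rw [Finset.mem_image]
        refine ⟨z, ?_, hzn⟩
        rw [Sset, Finset.mem_filter, hzn]
        exact ⟨hz, h2.1, h2.2⟩
      exact (Finset.card_le_card h1).trans Finset.card_image_le
    -- every element of `Sset` is a difference
    have hSall : ∀ z ∈ Sset kk d H N R mm k q, ∀ j, |pair (U j) z| ≤ 2 * kk * (T : ℤ) := by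
      intro z hz
      rw [Sset, Finset.mem_filter] at hz
      obtain ⟨z', hz', hval, hpair⟩ := hdiff _ (hsub (hB1 _ hz.2.1 hz.2.2))
      have := hinj z' z hz' hz.1 hval
      rw [← this]
      exact hpair
    have hmem : ∀ j, U j ∈ Uset kk d H N R mm T k q := by
      intro j
      rw [Uset, Finset.mem_filter]
      exact ⟨Finset.mem_univ _, fun z hz => hSall z hz j⟩
    -- the index is good
    have hgood : (⟨k, ⟨q, by omega⟩⟩ : (Fin mm → Fin R) × Fin (N + 1)) ∈ s := by
      by_contra hbad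
      have hbad' : 2 ^ d < 2 * (Uset kk d H N R mm T k q).card := by
        by_contra h
        exact hbad (Finset.mem_filter.2 ⟨Finset.mem_univ _, not_lt.1 h⟩)
      obtain ⟨I, hI, hsh⟩ := exists_shatters _ hbad'
      have h1 : ∀ z ∈ Sset kk d H N R mm k q, ∀ z' ∈ Sset kk d H N R mm k q,
          (∀ i, i ∉ I → z i = z' i) → ∑ i ∈ I, |z i - z' i| ≤ ((4 * kk * T : ℕ) : ℤ) := by
        intro z hz z' hz' heq
        have := fiber_l1 hsh (S := Sset kk d H N R mm k q) (W := 2 * kk * (T : ℤ))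
          (fun U hU z hz => (Finset.mem_filter.1 hU).2 z hz) hz hz' heq
        push_cast
        linarith
      have h2 := card_mul_pow_le (L := 2 * kk * H) (I := I) (S := Sset kk d H N R mm k q)
        (W := 4 * kk * T)
        (Finset.filter_subset _ _) h1 hx0 hx1
      have hIcard : I.card ≤ d := by
        have := Finset.card_le_univ I
        simpa using this
      refine hcount q Θ.card hP I.card (Sset kk d H N R mm k q).card hI hIcard ?_ ?_
      · refine h2.trans (le_of_eq ?_)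
        congr 2
        push_cast
        ring
      · exact hpig.trans (Nat.mul_le_mul_left _ hBS)
    obtain ⟨j, hj⟩ := hU _ hgood
    exact hj (hmem j)

end Pool.Agent.Y940.BogK
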