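import Pool.Agent.Y940.BogK.Core

set_option autoImplicit false

/-!
Choice of the parameters (adapted from `Pool.Agent.H842R3.BogoD`).
-/

namespace Pool.Agent.Y940.BogK

open Pool.Agent.H842R3.Bogo

open Finset

lemma cube_le_two_pow {t : ℕ} (ht : 12 ≤ t) : 2 * t ^ 3 + 1 ≤ 2 ^ t := by
  induction t, ht using Nat.le_induction with
  | base => norm_num
  | succ n hn ih =>
    rw [pow_succ 2 n]
    have h1 : 12 * n ^ 2 ≤ n ^ 3 := by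
      calc 12 * n ^ 2 ≤ n * n ^ 2 := Nat.mul_le_mul_right _ hn
        _ = n ^ 3 := by ring
    have h2 : 12 * n ≤ n ^ 2 := by
      calc 12 * n ≤ n * n := Nat.mul_le_mul_right _ hn
        _ = n ^ 2 := by ring
    have h3 : (n + 1) ^ 3 = n ^ 3 + 3 * n ^ 2 + 3 * n + 1 := by ring
    omega

lemma base_le {kk t : ℕ} (ht : 12 ≤ t) (hk : 2 * kk ≤ t) : 4 * kk * t ^ 2 + 1 ≤ 2 ^ t := by
  refine le_trans ?_ (cube_le_two_pow ht)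
  have h1 : 2 * kk * t ^ 2 ≤ t * t ^ 2 := Nat.mul_le_mul_right _ hk
  have h2 : t * t ^ 2 = t ^ 3 := by ring
  have h3 : 4 * kk * t ^ 2 = 2 * (2 * kk * t ^ 2) := by ring
  omega

lemma index_bound {kk t : ℕ} (ht : 12 ≤ t) (hk : 2 * kk ≤ t) :
    (((4 * kk * t ^ 2 + 1) ^ (t ^ 4)) ^ 2) ^ (t ^ 5) * ((4 * kk * t ^ 2 + 1) ^ (t ^ 4) + 1) < 2 ^ (t ^ 11) := by
  have h1 := base_le ht hk
  have h2 : (4 * kk * t ^ 2 + 1) ^ (t ^ 4) ≤ 2 ^ (t ^ 5) := by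
    calc (4 * kk * t ^ 2 + 1) ^ (t ^ 4) ≤ (2 ^ t) ^ (t ^ 4) := Nat.pow_le_pow_left h1 _
      _ = 2 ^ (t ^ 5) := by rw [← pow_mul]; congr 1; ring
  have h3 : (((4 * kk * t ^ 2 + 1) ^ (t ^ 4)) ^ 2) ^ (t ^ 5) ≤ 2 ^ (2 * t ^ 10) := by
    calc (((4 * kk * t ^ 2 + 1) ^ (t ^ 4)) ^ 2) ^ (t ^ 5) ≤ ((2 ^ (t ^ 5)) ^ 2) ^ (t ^ 5) :=
          Nat.pow_le_pow_left (Nat.pow_le_pow_left h2 _) _
      _ = 2 ^ (2 * t ^ 10) := by rw [← pow_mul, ← pow_mul]; congr 1; ring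
  have h4 : (4 * kk * t ^ 2 + 1) ^ (t ^ 4) + 1 ≤ 2 ^ (t ^ 5 + 1) := by
    have : 1 ≤ 2 ^ (t ^ 5) := Nat.one_le_two_pow
    rw [pow_succ 2 (t ^ 5)]
    omega
  calc (((4 * kk * t ^ 2 + 1) ^ (t ^ 4)) ^ 2) ^ (t ^ 5) * ((4 * kk * t ^ 2 + 1) ^ (t ^ 4) + 1)
      ≤ 2 ^ (2 * t ^ 10) * 2 ^ (t ^ 5 + 1) := Nat.mul_le_mul h3 h4
    _ = 2 ^ (2 * t ^ 10 + (t ^ 5 + 1)) := by rw [← pow_add]
    _ < 2 ^ (t ^ 11) := by
        refine Nat.pow_lt_pow_right (by norm_num) ?_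
        have h5 : t ^ 11 = t * t ^ 10 := by ring
        have h6 : t ^ 10 = t ^ 5 * t ^ 5 := by ring
        have h7 : 1 ≤ t ^ 5 := Nat.one_le_pow _ _ (by omega)
        have h8 : t ^ 5 ≤ t ^ 10 := Nat.pow_le_pow_right (by omega) (by norm_num)
        have h9 : 10 * t ^ 10 ≤ t * t ^ 10 := Nat.mul_le_mul_right _ (by omega)
        omega

lemma exp_bound {t : ℕ} (ht : 200000 ≤ t) : 4 * (t : ℝ) ^ 11 ≤ Real.exp ((t : ℝ) ^ 2 / 2) := by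
  have ht' : (200000 : ℝ) ≤ t := by exact_mod_cast ht
  have h1 := Real.pow_div_factorial_le_exp ((t : ℝ) ^ 2 / 2) (by positivity) 6
  refine le_trans ?_ h1
  have h2 : ((t : ℝ) ^ 2 / 2) ^ 6 / ((Nat.factorial 6 : ℕ) : ℝ) = (t : ℝ) ^ 11 * ((t : ℝ) / 46080) := by
    have : (Nat.factorial 6 : ℕ) = 720 := by decide
    rw [this]
    push_cast
    ring
  rw [h2, mul_comm]
  refine mul_le_mul_of_nonneg_left ?_ (by positivity)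
  linarith

lemma hoeffding_param {t : ℕ} (ht : 200000 ≤ t) :
    ((t ^ 11 : ℕ) : ℝ) * (2 * ((2 * ((t ^ 2 : ℕ) : ℝ) + 1) ^ (t ^ 4) *
      Real.exp (((t ^ 4 : ℕ) : ℝ) * ((1 / (t : ℝ) ^ 3) ^ 2 * ((t ^ 2 : ℕ) : ℝ) ^ 2 / 2) -
        (1 / (t : ℝ) ^ 3) * ((t ^ 5 : ℕ) : ℝ))))
      ≤ ((2 * ((t ^ 2 : ℕ) : ℝ) + 1) ^ (t ^ 4) : ℝ) / 2 := by
  have ht0 : (0 : ℝ) < t := by
    have : 0 < t := by omega
    exact_mod_cast this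
  have h1 : ((t ^ 4 : ℕ) : ℝ) * ((1 / (t : ℝ) ^ 3) ^ 2 * ((t ^ 2 : ℕ) : ℝ) ^ 2 / 2) -
        (1 / (t : ℝ) ^ 3) * ((t ^ 5 : ℕ) : ℝ) = -((t : ℝ) ^ 2 / 2) := by
    push_cast
    field_simp
    ring
  rw [h1, Real.exp_neg]
  have h2 := exp_bound ht
  have h3 := Real.exp_pos ((t : ℝ) ^ 2 / 2)
  have h4 : ((t ^ 11 : ℕ) : ℝ) * (Real.exp ((t : ℝ) ^ 2 / 2))⁻¹ ≤ 1 / 4 := by
    rw [← div_eq_mul_inv, div_le_iff₀ h3]
    push_cast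
    linarith
  have h5 : (0 : ℝ) ≤ (2 * ((t ^ 2 : ℕ) : ℝ) + 1) ^ (t ^ 4) := by positivity
  calc ((t ^ 11 : ℕ) : ℝ) * (2 * ((2 * ((t ^ 2 : ℕ) : ℝ) + 1) ^ (t ^ 4) *
        (Real.exp ((t : ℝ) ^ 2 / 2))⁻¹))
      = (((t ^ 11 : ℕ) : ℝ) * (Real.exp ((t : ℝ) ^ 2 / 2))⁻¹) *
          (2 * (2 * ((t ^ 2 : ℕ) : ℝ) + 1) ^ (t ^ 4)) := by ring
    _ ≤ 1 / 4 * (2 * (2 * ((t ^ 2 : ℕ) : ℝ) + 1) ^ (t ^ 4)) :=
        mul_le_mul_of_nonneg_right h4 (by positivity)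
    _ = ((2 * ((t ^ 2 : ℕ) : ℝ) + 1) ^ (t ^ 4) : ℝ) / 2 := by ring

lemma quarter_le {kk t : ℕ} (hk : 1 ≤ kk) (ht : 1 ≤ t) :
    (1 / 4 : ℝ) ^ (t ^ 4) ≤ (1 - 1 / (4 * kk * (t : ℝ))) ^ (4 * kk * t ^ 5) := by
  have ht0 : (1 : ℝ) ≤ t := by exact_mod_cast ht
  have hk0 : (1 : ℝ) ≤ kk := by exact_mod_cast hk
  have h0 : (1 : ℝ) ≤ 4 * kk * t := by nlinarith
  have h1 : (1 / 2 : ℝ) ≤ (1 - 1 / (4 * kk * (t : ℝ))) ^ (2 * kk * t) := by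
    have h2 := one_add_mul_le_pow (a := -(1 / (4 * kk * (t : ℝ)))) (by
      have : 1 / (4 * kk * (t : ℝ)) ≤ 1 := by
        rw [div_le_one (by linarith)]; linarith
      linarith) (2 * kk * t)
    have h3 : (1 : ℝ) + ((2 * kk * t : ℕ) : ℝ) * -(1 / (4 * kk * (t : ℝ))) = 1 / 2 := by
      push_cast
      field_simp
      ring
    rw [h3] at h2
    rw [sub_eq_add_neg]
    exact h2
  have h4 : (1 - 1 / (4 * kk * (t : ℝ))) ^ (4 * kk * t ^ 5)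
      = (((1 - 1 / (4 * kk * (t : ℝ))) ^ (2 * kk * t)) ^ 2) ^ (t ^ 4) := by
    rw [← pow_mul, ← pow_mul]
    congr 1
    ring
  rw [h4]
  refine pow_le_pow_left₀ (by norm_num) ?_ _
  calc (1 / 4 : ℝ) = (1 / 2) ^ 2 := by norm_num
    _ ≤ _ := pow_le_pow_left₀ (by norm_num) h1 2

lemma count_param {kk t : ℕ} (hkk : 1 ≤ kk) (ht : 2 ≤ t) (q m : ℕ)
    (hP : 32 ^ (t ^ 4) * q ^ (2 * m) < t ^ (t ^ 4)) (k s : ℕ) (hk : t ^ 4 ≤ 2 * k)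
    (hkd : k ≤ t ^ 4)
    (h1 : (s : ℝ) * (1 - 1 / (4 * kk * (t : ℝ))) ^ (4 * kk * t ^ 5) ≤
      (2 / (1 - (1 - 1 / (4 * kk * (t : ℝ))))) ^ k *
        (4 * kk * ((t ^ 2 : ℕ) : ℝ) + 1) ^ (t ^ 4 - k))
    (h2 : (4 * kk * t ^ 2 + 1) ^ (t ^ 4) + 1 ≤ q ^ m * s) : False := by
  have ht0 : (2 : ℝ) ≤ t := by exact_mod_cast ht
  have htpos : (0 : ℝ) < t := by linarith
  set d := t ^ 4 with hd
  have hk0 : (1 : ℝ) ≤ kk := by exact_mod_cast hkk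
  have h3 : (2 : ℝ) / (1 - (1 - 1 / (4 * kk * (t : ℝ)))) = 8 * kk * t := by
    field_simp
    ring
  rw [h3] at h1
  have h4 := quarter_le (kk := kk) (t := t) hkk (by omega)
  rw [← hd] at h4
  -- combine
  have h5 : (s : ℝ) * (1 / 4) ^ d ≤ (8 * kk * (t : ℝ)) ^ k * (4 * kk * ((t ^ 2 : ℕ) : ℝ) + 1) ^ (d - k) :=
    le_trans (mul_le_mul_of_nonneg_left h4 (Nat.cast_nonneg s)) h1
  have h6 : (4 * kk * ((t ^ 2 : ℕ) : ℝ) + 1) ^ d ≤ (q : ℝ) ^ m * s := by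
    have : ((4 * kk * t ^ 2 + 1) ^ d : ℕ) ≤ q ^ m * s := by omega
    exact_mod_cast this
  have hMpos : (0 : ℝ) < 4 * kk * ((t ^ 2 : ℕ) : ℝ) + 1 := by positivity
  have h7 : (4 * kk * ((t ^ 2 : ℕ) : ℝ) + 1) ^ d
      = (4 * kk * ((t ^ 2 : ℕ) : ℝ) + 1) ^ k * (4 * kk * ((t ^ 2 : ℕ) : ℝ) + 1) ^ (d - k) := by
    rw [← pow_add]
    congr 1
    omega
  have h8 : (4 * kk * ((t ^ 2 : ℕ) : ℝ) + 1) ^ k * (4 * kk * ((t ^ 2 : ℕ) : ℝ) + 1) ^ (d - k)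
      ≤ (4 ^ d * (q : ℝ) ^ m * (8 * kk * (t : ℝ)) ^ k) * (4 * kk * ((t ^ 2 : ℕ) : ℝ) + 1) ^ (d - k) := by
    rw [← h7]
    refine h6.trans ?_
    have h9 : (s : ℝ) = 4 ^ d * ((s : ℝ) * (1 / 4) ^ d) := by
      have : (4 : ℝ) ^ d * (1 / 4) ^ d = 1 := by
        rw [← mul_pow]; norm_num
      calc (s : ℝ) = (4 ^ d * (1 / 4) ^ d) * s := by rw [this, one_mul]
        _ = 4 ^ d * ((s : ℝ) * (1 / 4) ^ d) := by ring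
    calc (q : ℝ) ^ m * s = (q : ℝ) ^ m * (4 ^ d * ((s : ℝ) * (1 / 4) ^ d)) := by rw [← h9]
      _ ≤ (q : ℝ) ^ m * (4 ^ d * ((8 * kk * (t : ℝ)) ^ k *
            (4 * kk * ((t ^ 2 : ℕ) : ℝ) + 1) ^ (d - k))) := by
          refine mul_le_mul_of_nonneg_left ?_ (by positivity)
          exact mul_le_mul_of_nonneg_left h5 (by positivity)
      _ = _ := by ring
  have h10 : (4 * kk * ((t ^ 2 : ℕ) : ℝ) + 1) ^ k ≤ 4 ^ d * (q : ℝ) ^ m * (8 * kk * (t : ℝ)) ^ k :=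
    le_of_mul_le_mul_right h8 (by positivity)
  have h11 : (8 * kk * (t : ℝ) * (t / 2)) ^ k ≤ 4 ^ d * (q : ℝ) ^ m * (8 * kk * (t : ℝ)) ^ k := by
    refine le_trans (pow_le_pow_left₀ (by positivity) ?_ k) h10
    push_cast
    nlinarith
  rw [mul_pow] at h11
  have h12 : ((t : ℝ) / 2) ^ k ≤ 4 ^ d * (q : ℝ) ^ m := by
    have h13 : (0 : ℝ) < (8 * kk * (t : ℝ)) ^ k := by positivity
    refine le_of_mul_le_mul_left ?_ h13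
    linarith
  have h14 : ((t : ℝ) / 2) ^ d ≤ (4 ^ d * (q : ℝ) ^ m) ^ 2 := by
    calc ((t : ℝ) / 2) ^ d ≤ ((t : ℝ) / 2) ^ (2 * k) :=
          pow_le_pow_right₀ (by linarith) hk
      _ = (((t : ℝ) / 2) ^ k) ^ 2 := by rw [← pow_mul]; congr 1; ring
      _ ≤ (4 ^ d * (q : ℝ) ^ m) ^ 2 := pow_le_pow_left₀ (by positivity) h12 2
  have h15 : (t : ℝ) ^ d ≤ 32 ^ d * (q : ℝ) ^ (2 * m) := by
    calc (t : ℝ) ^ d = 2 ^ d * ((t : ℝ) / 2) ^ d := by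
          rw [← mul_pow]; congr 1; ring
      _ ≤ 2 ^ d * (4 ^ d * (q : ℝ) ^ m) ^ 2 := mul_le_mul_of_nonneg_left h14 (by positivity)
      _ = 32 ^ d * (q : ℝ) ^ (2 * m) := by
          have : (32 : ℝ) ^ d = 2 ^ d * (4 ^ d) ^ 2 := by
            rw [← pow_mul, mul_comm d 2, pow_mul, ← mul_pow]
            norm_num
          rw [this, pow_mul']
          ring
  have h16 : t ^ d ≤ 32 ^ d * q ^ (2 * m) := by exact_mod_cast h15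
  omega

/-- The main quantitative statement. -/
theorem main_t (kk t : ℕ) (hkk : 1 ≤ kk) (hkt : 2 * kk ≤ t) (ht : 200000 ≤ t) :
    ∃ A : Finset ℤ, A ⊆ Finset.Icc 1 (((4 * kk * t ^ 2 + 1) ^ (t ^ 4) : ℕ) : ℤ) ∧
      (2 * t ^ 2 + 1) ^ (t ^ 4) ≤ 2 * A.card ∧ A.card ≤ (2 * t ^ 2 + 1) ^ (t ^ 4) ∧
      ∀ (Θ : Finset UnitAddCircle) (ρ : ℝ), 0 < ρ → ρ ≤ 1 / 2 →
        bohrSet Θ ρ ((4 * kk * t ^ 2 + 1) ^ (t ^ 4)) ⊆ kDiff kk A →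
        t ^ (t ^ 4) ≤ 32 ^ (t ^ 4) * ⌈2 / ρ⌉₊ ^ (2 * Θ.card) := by
  have hN0 : 0 < (4 * kk * t ^ 2 + 1) ^ (t ^ 4) := by positivity
  have ht0 : (200000 : ℝ) ≤ t := by exact_mod_cast ht
  have hx1 : 1 - 1 / (4 * kk * (t : ℝ)) < 1 := by
    have : 0 < 1 / (4 * kk * (t : ℝ)) := by positivity
    linarith
  have hx0 : 0 < 1 - 1 / (4 * kk * (t : ℝ)) := by
    have hk0 : (1 : ℝ) ≤ kk := by exact_mod_cast hkk
    have : 1 / (4 * kk * (t : ℝ)) < 1 := by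
      rw [div_lt_one (by positivity)]; nlinarith
    linarith
  obtain ⟨A, hA1, hA2, hA3, hA4⟩ := core_abstract (kk := kk) hkk (d := t ^ 4) (H := t ^ 2) (T := t ^ 5)
    (J := t ^ 11) (mm := t ^ 5) (R := ((4 * kk * t ^ 2 + 1) ^ (t ^ 4)) ^ 2)
    (N := (4 * kk * t ^ 2 + 1) ^ (t ^ 4)) (l := 1 / (t : ℝ) ^ 3) (x := 1 - 1 / (4 * kk * (t : ℝ)))
    (fun q m => 32 ^ (t ^ 4) * q ^ (2 * m) < t ^ (t ^ 4)) rfl (by positivity)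
    (index_bound (by omega) hkt) (by positivity) (hoeffding_param ht) hx0 hx1
    (fun q m hP k s hk hkd h1 h2 => count_param hkk (by omega) q m hP k s hk hkd h1 h2)
  refine ⟨A, hA1, hA2, hA3, ?_⟩
  intro Θ ρ hρ0 hρ1 hsub
  by_contra hcon
  rw [not_le] at hcon
  have htN : t ^ (t ^ 4) ≤ (4 * kk * t ^ 2 + 1) ^ (t ^ 4) := by
    refine Nat.pow_le_pow_left ?_ _
    nlinarith
  rcases Nat.eq_zero_or_pos Θ.card with hm | hm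
  · have hΘ : Θ = ∅ := Finset.card_eq_zero.1 hm
    subst hΘ
    have hb : bohrSet ∅ (1 / 2) ((4 * kk * t ^ 2 + 1) ^ (t ^ 4)) ⊆ kDiff kk A := by
      refine subset_trans ?_ hsub
      rintro n ⟨hn, -⟩
      exact ⟨hn, fun θ hθ => absurd hθ (Finset.notMem_empty θ)⟩
    have h4N : 4 ≤ (4 * kk * t ^ 2 + 1) ^ (t ^ 4) := by
      have h1 : 4 * kk * t ^ 2 + 1 ≤ (4 * kk * t ^ 2 + 1) ^ (t ^ 4) :=
        Nat.le_self_pow (by positivity) _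
      nlinarith
    refine hA4 ∅ (1 / 2) 4 (by norm_num) (by norm_num) h4N ?_ (by simp) ?_ hb
    · rw [sq ((4 * kk * t ^ 2 + 1) ^ (t ^ 4))]
      exact Nat.mul_le_mul_left _ h4N
    · simpa using hcon
  · set q := ⌈2 / ρ⌉₊ with hq
    have hq4 : 4 ≤ q := by
      have h1 : (4 : ℝ) ≤ 2 / ρ := by
        rw [le_div_iff₀ hρ0]; linarith
      have h2 : (2 : ℝ) / ρ ≤ q := Nat.le_ceil _
      have h3 : (4 : ℝ) ≤ q := h1.trans h2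
      exact_mod_cast h3
    have hq0 : (0 : ℝ) < q := by
      have : (4 : ℝ) ≤ q := by exact_mod_cast hq4
      linarith
    have hqρ : 2 / (q : ℝ) ≤ ρ := by
      rw [div_le_iff₀ hq0]
      have h2 : (2 : ℝ) / ρ ≤ q := Nat.le_ceil _
      rw [div_le_iff₀ hρ0] at h2
      linarith
    have h32 : 1 ≤ 32 ^ (t ^ 4) := Nat.one_le_pow _ _ (by norm_num)
    have hqm : q ^ (2 * Θ.card) < t ^ (t ^ 4) :=
      lt_of_le_of_lt (Nat.le_mul_of_pos_left _ h32) hcon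
    have hqN : q ≤ (4 * kk * t ^ 2 + 1) ^ (t ^ 4) := by
      have h1 : q ≤ q ^ (2 * Θ.card) := Nat.le_self_pow (by omega) _
      omega
    have hmm : Θ.card ≤ t ^ 5 := by
      have h1 : 2 ^ Θ.card ≤ q ^ (2 * Θ.card) := by
        calc 2 ^ Θ.card ≤ q ^ Θ.card := Nat.pow_le_pow_left (by omega) _
          _ ≤ q ^ (2 * Θ.card) := Nat.pow_le_pow_right (by omega) (by omega)
      have h2 : t ^ (t ^ 4) ≤ 2 ^ (t ^ 5) := by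
        calc t ^ (t ^ 4) ≤ (2 ^ t) ^ (t ^ 4) := Nat.pow_le_pow_left Nat.lt_two_pow_self.le _
          _ = 2 ^ (t ^ 5) := by rw [← pow_mul]; congr 1; ring
      have h3 : 2 ^ Θ.card < 2 ^ (t ^ 5) := by omega
      exact (Nat.pow_lt_pow_iff_right (by norm_num)).1 h3 |>.le
    refine hA4 Θ ρ q (by omega) hqρ hqN ?_ hmm hcon hsub
    rw [sq ((4 * kk * t ^ 2 + 1) ^ (t ^ 4))]
    exact Nat.mul_le_mul_left _ hqN

end Pool.Agent.Y940.BogK
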